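import Pool.Agent.Helper194.BB.F
import Pool.Agent.Helper194.BB.P
import Pool.Agent.Helper257.BB.Test

/-!
A family of Hurewicz fibrations with isometric Hilbert cube fibres over a Peano continuum, with
surjective fibrewise `ε`-maps to the product which are not shape equivalences.
-/

namespace Pool.Agent.Results.MP_bb2a3d_gt.HilbertCubeFibres

/-- `p` is a Hurewicz fibration: it has the homotopy lifting property for all spaces. -/
def IsHurewiczFibration {E B : Type} [TopologicalSpace E] [TopologicalSpace B] (p : C(E, B)) : Prop :=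
  ∀ (X : Type) [TopologicalSpace X] (H : C(X × unitInterval, B)) (h : C(X, E)),
    (∀ x, p (h x) = H (x, 0)) →
      ∃ G : C(X × unitInterval, E), (∀ x, G (x, 0) = h x) ∧ ∀ q, p (G q) = H q

/-- `K` is an absolute neighbourhood retract: `K` is metrizable, and every continuous map from a
closed subset `A` of a metrizable space `X` to `K` extends to an open neighbourhood `U` of `A`. -/
def IsANR (K : Type) [TopologicalSpace K] : Prop :=
  TopologicalSpace.MetrizableSpace K ∧
    ∀ (X : Type) [TopologicalSpace X] [TopologicalSpace.MetrizableSpace X] (A : Set X),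
      IsClosed A → ∀ φ : C(A, K), ∃ (U : Set X) (ψ : C(U, K)), IsOpen U ∧
        ∃ h : A ⊆ U, ∀ a : A, ψ ⟨a.1, h a.2⟩ = φ a

/-- `f : X → Y` is a shape equivalence: for every absolute neighbourhood retract `K`, composition
with `f` is a bijection `[Y, K] → [X, K]` between the sets of homotopy classes of maps. -/
def IsShapeEquivalence {X Y : Type} [TopologicalSpace X] [TopologicalSpace Y] (f : C(X, Y)) : Prop :=
  ∀ (K : Type) [TopologicalSpace K], IsANR K →
    (∀ u : C(X, K), ∃ w : C(Y, K), ContinuousMap.Homotopic (w.comp f) u) ∧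
    ∀ w w' : C(Y, K), ContinuousMap.Homotopic (w.comp f) (w'.comp f) → ContinuousMap.Homotopic w w'

theorem result :
    ∃ (M : Type) (_ : MetricSpace M), Nonempty (M ≃ₜ (ℕ → unitInterval)) ∧
    ∃ (B : Type) (_ : MetricSpace B),
      CompactSpace B ∧ ConnectedSpace B ∧ LocallyConnectedSpace B ∧
      ∀ ε > (0 : ℝ), ∃ (E : Type) (_ : MetricSpace E) (_ : CompactSpace E) (p : C(E, B)),
        IsHurewiczFibration p ∧ (∀ b, Nonempty (p ⁻¹' {b} ≃ᵢ M)) ∧
        ∃ f : C(E, M × B), (∀ e, (f e).2 = p e) ∧ Function.Surjective f ∧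
          (∀ x, Metric.diam (f ⁻¹' {x}) < ε) ∧ ¬ IsShapeEquivalence f := by
  obtain ⟨u0, hu0⟩ := BB.no_map BB.FD0 BB.x00 BB.x00_act (fun c h => (BB.K_facts c h).1) BB.s00
    BB.s00_act (fun c h => (BB.K_facts c h).2) BB.cstar BB.act_cstar BB.cstar_mem BB.cend
    BB.s00_cend BB.test_family
  have hcomp : CompactSpace BB.FD0.M := by
    obtain ⟨h⟩ := BB.M_cube
    exact h.symm.compactSpace
  refine ⟨BB.PM BB.FD0.M, inferInstance, BB.pm_cube _ BB.M_cube, BB.Bs, inferInstance,
    inferInstance, BB.Bs_conn, BB.Bs_loc, ?_⟩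
  have hs : Function.Surjective BB.FD0.p := fun b => ⟨BB.FD0.Q (b, BB.cstar), BB.FD0.p_Q _⟩
  exact BB.product_trick BB.FD0.M BB.Bs BB.FD0.E BB.M_cube BB.FD0.p hs BB.FD0.hlp BB.FD0.fibre_iso
    BB.OO (BB.open_anr BB.OO BB.OO_open) u0 hu0

end Pool.Agent.Results.MP_bb2a3d_gt.HilbertCubeFibres
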